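import Pool.Agent.H469Z.TautCirc

open H469Z.Taut

namespace Pool.Agent.Results.MP_5c6b81_gt.NotTaut

/-- In the Heisenberg group with its left invariant metric the cylinder is taut, the horizontal
unit circle is the set of end points of a critical submanifold of the energy `E_0` on the space
of paths from the origin to the cylinder, and this circle is not taut. -/
theorem result :
    IsMetric nilMetric ∧ IsCompleteMetric nilMetric ∧
    IsProperSubmanifold cyl 2 ∧ IsTaut nilMetric cyl ∧
    ∃ f ∈ crit nilMetric 0 cyl,
      (fun h => path 0 h 1) '' connectedComponentIn (crit nilMetric 0 cyl) f = circ ∧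
      IsProperSubmanifold circ 1 ∧ ¬ IsTaut nilMetric circ :=
  have h : seg 0 1 ∈ crit nilMetric 0 cyl := seg_crit 0 (by simp) (by simp)
  ⟨isMetric_nil, complete_nil, sub_cyl, taut_cyl, seg 0 1, h, component_zero h, sub_circ,
    not_taut_circ⟩

end Pool.Agent.Results.MP_5c6b81_gt.NotTaut
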